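import Pool.Agent.H.MP_105042_an.B

set_option autoImplicit false

open MeasureTheory Filter Topology Metric
open scoped ContDiff

namespace Pool.Agent.Results.MP_105042_an.No

abbrev E := EuclideanSpace ℝ (Fin 4)

abbrev V := Fin 3 → ℝ

abbrev M := Fin 3 → Fin 4 → ℝ

/-- Derivative in the `i`-th coordinate direction. -/
noncomputable def pd (ψ : E → ℝ) (i : Fin 4) (x : E) : ℝ :=
  fderiv ℝ ψ x (EuclideanSpace.single i 1)

/-- Smooth compactly supported test functions. -/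
def Test (ψ : E → ℝ) : Prop := ContDiff ℝ ∞ ψ ∧ HasCompactSupport ψ

/-- Lebesgue measure on the open ball. -/
noncomputable def B (x : E) (r : ℝ) : Measure E := volume.restrict (ball x r)

/-- Caratheodory map with quadratic growth in the last variable. -/
def Growth (Q : E → V → M → V) : Prop :=
  (∀ y z, Measurable fun x => Q x y z) ∧ (∀ x, Continuous fun w : V × M => Q x w.1 w.2) ∧
    ∃ C : ℝ, ∀ x y z, ‖Q x y z‖ ≤ C * ‖z‖ ^ 2

/-- `G` is the weak gradient of `u`. -/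
def WeakGrad (u : E → V) (G : E → M) : Prop :=
  ∀ ψ, Test ψ → ∀ a i, ∫ x, u x a * pd ψ i x = -∫ x, G x a i * ψ x

/-- Weak form of `div G = F`. -/
def WeakDiv (G : E → M) (F : E → V) : Prop :=
  ∀ ψ, Test ψ → ∀ a, -∑ i, ∫ x, G x a i * pd ψ i x = ∫ x, F x a * ψ x

/-- The Morrey quantity for `n = 4`, `p = 3` vanishes at `x0`. -/
def Morrey (G : E → M) (x0 : E) : Prop :=
  Tendsto (fun r : ℝ => (∫⁻ x, ‖G x‖ₑ ^ 3 ∂B x0 r) / ENNReal.ofReal r) (𝓝[>] 0) (𝓝 0)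

theorem result : ∃ (Q : E → V → M → V) (u : E → V) (G : E → M), Growth Q ∧
    MemLp u 3 (B 0 1) ∧ MemLp G 3 (B 0 1) ∧ WeakGrad u G ∧
    WeakDiv G (fun x => Q x (u x) (G x)) ∧ (∀ x0, Morrey G x0) ∧
    ¬ ∃ v : E → V, ContinuousOn v (ball 0 (1 / 2)) ∧ u =ᵐ[B 0 (1 / 2)] v := by
  obtain ⟨Q, C, u, G, h1, h2, h3, h4, h5, h6, h7, h8⟩ := Pool.Agent.H.MP_105042_an.main
  exact ⟨Q, u, G, ⟨h1, h2, C, h3⟩, h4, h5, fun ψ h a => (h6 ψ h.1 h.2 a).1,
    fun ψ h a => (h6 ψ h.1 h.2 a).2, h7, h8⟩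

end Pool.Agent.Results.MP_105042_an.No
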